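import Pool.Agent.H72.TR.Stm2

/-!
# The number of triples (project TR)
-/

set_option autoImplicit false
set_option linter.all false

namespace Pool.Agent.H23.TR

open Finset Pool.Agent.H72.TR

lemma cnt {n a b : ℕ} (hb : b ≤ n) :
    (univ.filter fun k : Fin n => a ≤ k.1 ∧ k.1 < b).card = b - a := by
  have h : (univ.filter fun k : Fin n => a ≤ k.1 ∧ k.1 < b).map Fin.valEmbedding = Ico a b := by
    ext x
    simp only [mem_map, mem_filter, mem_univ, true_and, Fin.valEmbedding_apply, mem_Ico]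
    constructor
    · rintro ⟨k, hk, rfl⟩
      exact hk
    · rintro ⟨h1, h2⟩
      exact ⟨⟨x, lt_of_lt_of_le h2 hb⟩, ⟨h1, h2⟩, rfl⟩
  rw [← card_map Fin.valEmbedding, h, Nat.card_Ico]

lemma cnt_bl {n w a b : ℕ} (hw : 1 ≤ w) (hb : b * w ≤ n) :
    (univ.filter fun k : Fin n => a ≤ bl w k ∧ bl w k < b).card = (b - a) * w := by
  have h : (univ.filter fun k : Fin n => a ≤ bl w k ∧ bl w k < b) =
      univ.filter fun k : Fin n => a * w ≤ k.1 ∧ k.1 < b * w := by
    refine filter_congr fun k _ => ?_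
    unfold bl
    rw [Nat.le_div_iff_mul_le (by omega), Nat.div_lt_iff_lt_mul (by omega)]
  rw [h, cnt hb, Nat.sub_mul]

theorem tri : TRI := by
  intro n w m hw hn
  set P : Finset (Fin n × Fin n) := (univ.filter fun i : Fin n => 0 ≤ bl w i ∧ bl w i < m) ×ˢ
    (univ.filter fun j : Fin n => m ≤ bl w j ∧ bl w j < 2 * m) with hP
  have hm1 : m * w ≤ n := by nlinarith
  have hm2 : 2 * m * w ≤ n := by nlinarith
  have hm3 : 3 * m * w ≤ n := by nlinarith
  have hPc : P.card = (m * w) * (m * w) := by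
    rw [hP, card_product, cnt_bl hw hm1, cnt_bl hw hm2]
    congr 1
    congr 1
    omega
  have hmap : ∀ t ∈ Tri n w m, (t.1, t.2.1) ∈ P := by
    intro t ht
    obtain ⟨h1, h2, h3, h4⟩ := (mem_filter.1 ht).2
    exact mem_product.2 ⟨mem_filter.2 ⟨mem_univ _, Nat.zero_le _, h1⟩,
      mem_filter.2 ⟨mem_univ _, h2, h3⟩⟩
  rw [card_eq_sum_card_fiberwise (f := fun t : Fin n × Fin n × Fin n => (t.1, t.2.1))
    (t := P) hmap]
  have hfib : ∀ q ∈ P, ((Tri n w m).filter fun t => (t.1, t.2.1) = q).card = w := by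
    rintro ⟨i, j⟩ hq
    obtain ⟨hi, hj⟩ := mem_product.1 hq
    obtain ⟨-, -, hi⟩ := mem_filter.1 hi
    obtain ⟨-, hj1, hj2⟩ := mem_filter.1 hj
    have hi' : bl w i < m := hi
    have hj1' : m ≤ bl w j := hj1
    have hj2' : bl w j < 2 * m := hj2
    have hb : (bl w i + bl w j + 2) * w ≤ n :=
      le_trans (Nat.mul_le_mul_right w (by omega)) hm3
    have h1 := cnt_bl (n := n) (a := bl w i + bl w j + 1) hw hb
    have h2 : (bl w i + bl w j + 2 - (bl w i + bl w j + 1)) * w = w := by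
      rw [show bl w i + bl w j + 2 - (bl w i + bl w j + 1) = 1 by omega, one_mul]
    rw [h2] at h1
    refine Eq.trans ?_ h1
    have hinj : Function.Injective (fun k : Fin n => (i, j, k)) := by
      intro k k' h
      exact (Prod.mk.inj (Prod.mk.inj h).2).2
    refine Eq.trans ?_ (card_image_of_injective _ hinj)
    congr 1
    ext ⟨i', j', k⟩
    simp only [Tri, mem_filter, mem_univ, true_and, mem_image, Prod.mk.injEq]
    constructor
    · rintro ⟨⟨h3, h4, h5, h6⟩, rfl, rfl⟩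
      exact ⟨k, ⟨by omega, by omega⟩, rfl, rfl, rfl⟩
    · rintro ⟨k', ⟨h3, h4⟩, rfl, rfl, rfl⟩
      exact ⟨⟨hi', hj1', hj2', by omega⟩, rfl, rfl⟩
  rw [sum_congr rfl hfib, sum_const, hPc, smul_eq_mul]
  ring

end Pool.Agent.H23.TR
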