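import Pool.Agent.H72.TR.Stm3
import Pool.Agent.H23.TR.Tri

/-!
# The blocks for sorted lists (project TR)
-/

set_option autoImplicit false
set_option linter.all false

namespace Pool.Agent.H23.TR

open Finset Pool.Agent.H72.TR

lemma us_iff {n g w s c : ℕ} (hw : 1 ≤ w) (p : Fin n) :
    Us n g w s p = 3 * g + 1 + c ↔
      2 * g * w + s + c * w ≤ p.1 ∧ p.1 < 2 * g * w + s + (c + 1) * w := by
  have h0 : (c + 1) * w = c * w + w := by ring
  unfold Us
  split_ifs with h1 h2
  · have h3 : p.1 / w < 2 * g := (Nat.div_lt_iff_lt_mul (by omega)).2 h1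
    constructor
    · intro h
      omega
    · rintro ⟨h4, -⟩
      omega
  · constructor
    · intro h
      omega
    · rintro ⟨h4, -⟩
      omega
  · have h3 : (p.1 - 2 * g * w - s) / w = c ↔
        c ≤ (p.1 - 2 * g * w - s) / w ∧ (p.1 - 2 * g * w - s) / w < c + 1 := by omega
    rw [Nat.le_div_iff_mul_le (by omega), Nat.div_lt_iff_lt_mul (by omega)] at h3
    constructor
    · intro h
      have h4 := h3.1 (by omega)
      omega
    · intro h
      have h4 := h3.2 (by omega)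
      omega

lemma cnt_us {n g w s c : ℕ} (hw : 1 ≤ w) (hc : 2 * g * w + s + (c + 1) * w ≤ n) :
    (univ.filter fun k : Fin n => Us n g w s k = 3 * g + 1 + c).card = w := by
  have h0 : (c + 1) * w = c * w + w := by ring
  rw [filter_congr fun k _ => us_iff hw k, cnt hc]
  omega

theorem blocks : BLOCKS := by
  intro n g w s hw hg hn hs
  have hgw : g ≤ g * w := Nat.le_mul_of_pos_right g hw
  have h5 : 5 * g * w = 5 * (g * w) := mul_assoc _ _ _
  have h2 : 2 * g * w = 2 * (g * w) := mul_assoc _ _ _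
  have hlt : ∀ p : ℕ, p < 2 * g * w → p / w < 2 * g := fun p h =>
    (Nat.div_lt_iff_lt_mul (by omega)).2 h
  have hA : ∀ p : Fin n, p.1 < g * w → Us n g w s p = g + p.1 / w ∧ p.1 / w < g := by
    intro p hp
    refine ⟨?_, (Nat.div_lt_iff_lt_mul (by omega)).2 hp⟩
    unfold Us
    rw [if_pos (by omega)]
  have hB : ∀ p : Fin n, g * w ≤ p.1 → p.1 < 2 * g * w →
      Us n g w s p = g + p.1 / w ∧ g ≤ p.1 / w ∧ p.1 / w < 2 * g := by
    intro p hp hp'
    refine ⟨?_, (Nat.le_div_iff_mul_le (by omega)).2 hp, hlt _ hp'⟩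
    unfold Us
    rw [if_pos hp']
  refine ⟨?_, ?_, ?_, ?_⟩
  · intro p q hpq
    have h : p.1 ≤ q.1 := hpq
    have h3 : p.1 / w ≤ q.1 / w := Nat.div_le_div_right h
    have h4 : (p.1 - 2 * g * w - s) / w ≤ (q.1 - 2 * g * w - s) / w :=
      Nat.div_le_div_right (by omega)
    have h6 := hlt p.1
    have h7 : 0 ≤ (p.1 - 2 * g * w - s) / w := Nat.zero_le _
    have h8 : 0 ≤ (q.1 - 2 * g * w - s) / w := Nat.zero_le _
    unfold Us
    split_ifs <;> omega
  · intro p
    have h3 : p.1 / w ≤ p.1 := Nat.div_le_self _ _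
    have h4 : (p.1 - 2 * g * w - s) / w ≤ p.1 - 2 * g * w - s := Nat.div_le_self _ _
    have h5 := p.2
    unfold Us
    split_ifs <;> omega
  · intro t ht
    obtain ⟨h3, h4, h6, -⟩ := (mem_filter.1 ht).2
    have h7 := hA _ h3
    have h8 := hB _ h4 h6
    omega
  · set P : Finset (Fin n × Fin n) := (univ.filter fun i : Fin n => 0 ≤ i.1 ∧ i.1 < g * w) ×ˢ
      (univ.filter fun j : Fin n => g * w ≤ j.1 ∧ j.1 < 2 * g * w) with hP
    have hPc : P.card = (g * w) * (g * w) := by
      rw [hP, card_product, cnt (by omega), cnt (by omega)]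
      congr 1
      omega
    have hmap : ∀ t ∈ Tr n g w s, (t.1, t.2.1) ∈ P := by
      intro t ht
      obtain ⟨h3, h4, h6, -⟩ := (mem_filter.1 ht).2
      exact mem_product.2 ⟨mem_filter.2 ⟨mem_univ _, Nat.zero_le _, h3⟩,
        mem_filter.2 ⟨mem_univ _, h4, h6⟩⟩
    rw [card_eq_sum_card_fiberwise (f := fun t : Fin n × Fin n × Fin n => (t.1, t.2.1))
      (t := P) hmap]
    have hfib : ∀ q ∈ P, ((Tr n g w s).filter fun t => (t.1, t.2.1) = q).card = w := by
      rintro ⟨i, j⟩ hq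
      obtain ⟨hi, hj⟩ := mem_product.1 hq
      obtain ⟨-, -, hi⟩ := mem_filter.1 hi
      obtain ⟨-, hj1, hj2⟩ := mem_filter.1 hj
      have hi' : i.1 < g * w := hi
      have hj1' : g * w ≤ j.1 := hj1
      have hj2' : j.1 < 2 * g * w := hj2
      obtain ⟨hi1, hi2⟩ := hA _ hi'
      obtain ⟨hj3, hj4, hj5⟩ := hB _ hj1' hj2'
      obtain ⟨c, hc⟩ : ∃ c, g + i.1 / w + (g + j.1 / w) + 1 = 3 * g + 1 + c :=
        ⟨i.1 / w + (j.1 / w - g), by omega⟩
      have hc2 : c + 2 ≤ 2 * g := by omega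
      have hc3 : (c + 2) * w ≤ 2 * g * w := Nat.mul_le_mul_right w hc2
      have hc4 : (c + 2) * w = (c + 1) * w + w := by ring
      have hb : 2 * g * w + s + (c + 1) * w ≤ n := by omega
      have h1 := cnt_us (n := n) hw hb
      refine Eq.trans ?_ h1
      have hinj : Function.Injective (fun k : Fin n => (i, j, k)) := by
        intro k k' h
        exact (Prod.mk.inj (Prod.mk.inj h).2).2
      refine Eq.trans ?_ (card_image_of_injective _ hinj)
      congr 1
      ext ⟨i', j', k⟩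
      simp only [Tr, mem_filter, mem_univ, true_and, mem_image, Prod.mk.injEq]
      constructor
      · rintro ⟨⟨h3, h4, h5, h6⟩, rfl, rfl⟩
        exact ⟨k, by rw [h6, hi1, hj3, hc], rfl, rfl, rfl⟩
      · rintro ⟨k', h3, rfl, rfl, rfl⟩
        exact ⟨⟨hi', hj1', hj2', by rw [h3, hi1, hj3, hc]⟩, rfl, rfl⟩
    rw [sum_congr rfl hfib, sum_const, hPc, smul_eq_mul]
    ring

end Pool.Agent.H23.TR
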