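import Pool.Agent.H23.TR.Pow

/-!
# The integer facts for the instances (project TR)
-/

set_option autoImplicit false
set_option linter.all false

namespace Pool.Agent.H23.TR

def K2 (n : ℕ) : ℤ := 100 * 4 ^ n

def K1 (n : ℕ) : ℤ := 20 * K2 n

/-- the values of the first instance (divided by `8 S`) -/
def X (n w p : ℕ) : ℤ := K1 n * (((p / w : ℕ) : ℤ) + 1) - 3 * K2 n + 4 ^ p

def ee (a b c : ℕ) : ℤ := 4 ^ a + 4 ^ b - 4 ^ c

/-- the shift -/
def sh (n w A B a b c p : ℕ) : ℤ :=
  (if p / w = A ∧ a ≤ p then K2 n else 0) + (if p / w = B ∧ b ≤ p then K2 n else 0) -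
    (if p / w = A + B + 1 ∧ p ≤ c then K2 n - ee a b c else 0)

/-- the values of the instance with a solution (divided by `8 S`) -/
def Z (n w A B a b c p : ℕ) : ℤ := X n w p + sh n w A B a b c p

section

variable {n w : ℕ}

lemma o_pos (p : ℕ) : (0 : ℤ) < 4 ^ p := by positivity

lemma o_lt {p : ℕ} (hp : p < n) : (4 : ℤ) * 4 ^ p ≤ 4 ^ n := by
  have h : (4 : ℕ) ^ (p + 1) ≤ 4 ^ n := Nat.pow_le_pow_right (by norm_num) hp
  have h' : (4 : ℤ) ^ (p + 1) ≤ 4 ^ n := by exact_mod_cast h
  rw [pow_succ] at h'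
  linarith

lemma o_mono {p q : ℕ} (hpq : p < q) : (4 : ℤ) ^ p < 4 ^ q := pow_lt_pow_right₀ (by norm_num) hpq

lemma K2_eq : K2 n = 100 * 4 ^ n := rfl

lemma posX {p : ℕ} (hp : p < n) : 0 < X n w p := by
  have h1 := o_pos p
  have h2 := o_pos n
  have h3 : (0 : ℤ) ≤ ((p / w : ℕ) : ℤ) := Int.natCast_nonneg _
  have h4 : 0 ≤ K1 n * ((p / w : ℕ) : ℤ) := mul_nonneg (by unfold K1 K2; positivity) h3
  unfold X
  rw [mul_add, mul_one]
  unfold K1 K2 at *
  linarith

lemma blk_le {p q : ℕ} (hpq : p < q) : p / w ≤ q / w := Nat.div_le_div_right hpq.le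

lemma ltX {p q : ℕ} (hq : q < n) (hpq : p < q) : X n w p < X n w q := by
  have h0 := blk_le (w := w) hpq
  have h1 := o_mono hpq
  have h2 : ((p / w : ℕ) : ℤ) ≤ ((q / w : ℕ) : ℤ) := by exact_mod_cast h0
  have h3 : K1 n * ((p / w : ℕ) : ℤ) ≤ K1 n * ((q / w : ℕ) : ℤ) :=
    mul_le_mul_of_nonneg_left h2 (by unfold K1 K2; positivity)
  unfold X
  rw [mul_add, mul_add]
  linarith

variable {A B a b c : ℕ}

lemma ee_bd (ha : a < n) (hb : b < n) (hc : c < n) : -4 ^ n ≤ ee a b c ∧ ee a b c ≤ 4 ^ n := by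
  have h1 := o_pos a
  have h2 := o_pos b
  have h3 := o_pos c
  have h4 := o_lt ha
  have h5 := o_lt hb
  have h6 := o_lt hc
  unfold ee
  constructor <;> linarith

/-- the values of the shift -/
lemma sh_cases (hAB : A < B) (p : ℕ) :
    (p / w = A ∧ a ≤ p ∧ sh n w A B a b c p = K2 n) ∨
    (p / w = A ∧ p < a ∧ sh n w A B a b c p = 0) ∨
    (p / w = B ∧ b ≤ p ∧ sh n w A B a b c p = K2 n) ∨
    (p / w = B ∧ p < b ∧ sh n w A B a b c p = 0) ∨
    (p / w = A + B + 1 ∧ p ≤ c ∧ sh n w A B a b c p = -(K2 n - ee a b c)) ∨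
    (p / w = A + B + 1 ∧ c < p ∧ sh n w A B a b c p = 0) ∨
    (p / w ≠ A ∧ p / w ≠ B ∧ p / w ≠ A + B + 1 ∧ sh n w A B a b c p = 0) := by
  by_cases h1 : p / w = A
  · have h2 : p / w ≠ B := by omega
    have h3 : p / w ≠ A + B + 1 := by omega
    by_cases h4 : a ≤ p
    · left
      refine ⟨h1, h4, ?_⟩
      unfold sh
      rw [if_pos ⟨h1, h4⟩, if_neg (fun h => h2 h.1), if_neg (fun h => h3 h.1)]
      ring
    · right; left
      refine ⟨h1, by omega, ?_⟩
      unfold sh
      rw [if_neg (fun h => h4 h.2), if_neg (fun h => h2 h.1), if_neg (fun h => h3 h.1)]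
      ring
  · by_cases h2 : p / w = B
    · have h3 : p / w ≠ A + B + 1 := by omega
      by_cases h4 : b ≤ p
      · right; right; left
        refine ⟨h2, h4, ?_⟩
        unfold sh
        rw [if_neg (fun h => h1 h.1), if_pos ⟨h2, h4⟩, if_neg (fun h => h3 h.1)]
        ring
      · right; right; right; left
        refine ⟨h2, by omega, ?_⟩
        unfold sh
        rw [if_neg (fun h => h1 h.1), if_neg (fun h => h4 h.2), if_neg (fun h => h3 h.1)]
        ring
    · by_cases h3 : p / w = A + B + 1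
      · by_cases h4 : p ≤ c
        · right; right; right; right; left
          refine ⟨h3, h4, ?_⟩
          unfold sh
          rw [if_neg (fun h => h1 h.1), if_neg (fun h => h2 h.1), if_pos ⟨h3, h4⟩]
          ring
        · right; right; right; right; right; left
          refine ⟨h3, by omega, ?_⟩
          unfold sh
          rw [if_neg (fun h => h1 h.1), if_neg (fun h => h2 h.1), if_neg (fun h => h4 h.2)]
          ring
      · right; right; right; right; right; right
        refine ⟨h1, h2, h3, ?_⟩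
        unfold sh
        rw [if_neg (fun h => h1 h.1), if_neg (fun h => h2 h.1), if_neg (fun h => h3 h.1)]
        ring

lemma sh_bd (hAB : A < B) (ha : a < n) (hb : b < n) (hc : c < n) (p : ℕ) :
    -(K2 n + 4 ^ n) ≤ sh n w A B a b c p ∧ sh n w A B a b c p ≤ K2 n := by
  have h1 := ee_bd ha hb hc
  have h2 := o_pos n
  have h3 := K2_eq (n := n)
  rcases sh_cases (n := n) (w := w) (a := a) (b := b) (c := c) hAB p with
    h | h | h | h | h | h | h
  all_goals
    obtain ⟨h4, h5⟩ := h1
    first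
    | (obtain ⟨_, _, hs⟩ := h; rw [hs, h3]; constructor <;> linarith)
    | (obtain ⟨_, _, _, hs⟩ := h; rw [hs, h3]; constructor <;> linarith)

lemma sh_mono (hAB : A < B) (ha : a < n) (hb : b < n) (hc : c < n) {p q : ℕ} (hpq : p < q)
    (hbl : p / w = q / w) : sh n w A B a b c p ≤ sh n w A B a b c q := by
  have h1 := ee_bd ha hb hc
  have h2 := o_pos n
  have h3 := K2_eq (n := n)
  obtain ⟨h4, h5⟩ := h1
  rcases sh_cases (n := n) (w := w) (a := a) (b := b) (c := c) hAB p with
    h | h | h | h | h | h | h <;>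
  rcases sh_cases (n := n) (w := w) (a := a) (b := b) (c := c) hAB q with
    h' | h' | h' | h' | h' | h' | h'
  all_goals
    first
    | (exfalso; omega)
    | (obtain ⟨_, _, hs⟩ := h; obtain ⟨_, _, hs'⟩ := h'; rw [hs, hs', h3]; linarith)
    | (obtain ⟨_, _, hs⟩ := h; obtain ⟨_, _, hs'⟩ := h'; rw [hs, hs'])
    | (obtain ⟨_, _, _, hs⟩ := h; obtain ⟨_, _, _, hs'⟩ := h'; rw [hs, hs'])

lemma posZ (hAB : A < B) (ha : a < n) (hb : b < n) (hc : c < n) {p : ℕ} (hp : p < n) :
    0 < Z n w A B a b c p := by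
  have h1 := o_pos p
  have h2 := o_pos n
  have h3 : (0 : ℤ) ≤ ((p / w : ℕ) : ℤ) := Int.natCast_nonneg _
  have h4 : 0 ≤ K1 n * ((p / w : ℕ) : ℤ) := mul_nonneg (by unfold K1 K2; positivity) h3
  have h5 := (sh_bd (w := w) hAB ha hb hc p).1
  unfold Z X
  rw [mul_add, mul_one]
  unfold K1 K2 at *
  linarith

lemma ltZ (hAB : A < B) (ha : a < n) (hb : b < n) (hc : c < n) {p q : ℕ} (hq : q < n)
    (hpq : p < q) : Z n w A B a b c p < Z n w A B a b c q := by
  have h0 := blk_le (w := w) hpq
  rcases h0.lt_or_eq with hlt | heq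
  · have h1 := o_mono hpq
    have h2 : ((p / w : ℕ) : ℤ) + 1 ≤ ((q / w : ℕ) : ℤ) := by exact_mod_cast hlt
    have h3 : K1 n * (((p / w : ℕ) : ℤ) + 1) ≤ K1 n * ((q / w : ℕ) : ℤ) :=
      mul_le_mul_of_nonneg_left h2 (by unfold K1 K2; positivity)
    have h4 := (sh_bd (w := w) hAB ha hb hc p).2
    have h5 := (sh_bd (w := w) hAB ha hb hc q).1
    have h6 := o_pos n
    unfold Z X
    rw [mul_add (K1 n) (((q / w : ℕ) : ℤ)) 1, mul_one]
    have h7 : K1 n = 20 * K2 n := rfl
    have h8 := K2_eq (n := n)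
    linarith
  · have h1 := ltX (w := w) hq hpq
    have h2 := sh_mono (w := w) hAB ha hb hc hpq heq
    unfold Z
    linarith

/-- the value of `x_i + x_j - x_k` -/
lemma val3 {i j k : ℕ} (hi : i < n) (hj : j < n) (hk : k < n) :
    X n w i + X n w j - X n w k = K1 n * (((i / w : ℕ) : ℤ) + ((j / w : ℕ) : ℤ) + 1 -
      ((k / w : ℕ) : ℤ)) - 3 * K2 n + (4 ^ i + 4 ^ j - 4 ^ k) := by
  unfold X
  ring

lemma neX {i j k : ℕ} (hi : i < n) (hj : j < n) (hk : k < n) :
    X n w i + X n w j - X n w k ≠ 0 := by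
  rw [val3 hi hj hk]
  have h1 := o_pos i
  have h2 := o_pos j
  have h3 := o_pos k
  have h4 := o_lt hi
  have h5 := o_lt hj
  have h6 := o_lt hk
  have h7 : K1 n = 2000 * 4 ^ n := by unfold K1 K2; ring
  have h8 : K2 n = 100 * 4 ^ n := rfl
  set T : ℤ := ((i / w : ℕ) : ℤ) + ((j / w : ℕ) : ℤ) + 1 - ((k / w : ℕ) : ℤ) with hT
  have h9 := o_pos n
  rcases lt_trichotomy T 0 with h | h | h
  · have h10 : K1 n * T ≤ K1 n * (-1) := mul_le_mul_of_nonneg_left (by omega) (by rw [h7]; positivity)
    intro h0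
    linarith
  · rw [h, mul_zero]
    intro h0
    linarith
  · have h10 : K1 n * 1 ≤ K1 n * T := mul_le_mul_of_nonneg_left (by omega) (by rw [h7]; positivity)
    intro h0
    linarith

/-- the three cases -/
lemma fac (hAB : A < B) (ha : a < n) (hb : b < n) (hc : c < n) {i j k : ℕ} (hi : i < n)
    (hj : j < n) (hk : k < n) :
    ((0 < X n w i + X n w j - X n w k ∧
      0 < Z n w A B a b c i + Z n w A B a b c j - Z n w A B a b c k) ∨
     (X n w i + X n w j - X n w k < 0 ∧
      Z n w A B a b c i + Z n w A B a b c j - Z n w A B a b c k < 0)) ∨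
    (((i / w = A ∧ j / w = B ∧ k / w = A + B + 1) ∨
      (j / w = A ∧ i / w = B ∧ k / w = A + B + 1)) ∧
      Z n w A B a b c i + Z n w A B a b c j - Z n w A B a b c k =
        4 ^ i + 4 ^ j - 4 ^ k - ee a b c) := by
  have h1 := o_pos i
  have h2 := o_pos j
  have h3 := o_pos k
  have h4 := o_lt hi
  have h5 := o_lt hj
  have h6 := o_lt hk
  have h7 : K1 n = 2000 * 4 ^ n := by unfold K1 K2; ring
  have h8 : K2 n = 100 * 4 ^ n := rfl
  have h9 := o_pos n
  have hv := val3 (w := w) hi hj hk
  have hz : Z n w A B a b c i + Z n w A B a b c j - Z n w A B a b c k =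
      (X n w i + X n w j - X n w k) + (sh n w A B a b c i + sh n w A B a b c j -
        sh n w A B a b c k) := by
    unfold Z
    ring
  set T : ℤ := ((i / w : ℕ) : ℤ) + ((j / w : ℕ) : ℤ) + 1 - ((k / w : ℕ) : ℤ) with hT
  obtain ⟨si1, si2⟩ := sh_bd (w := w) hAB ha hb hc i
  obtain ⟨sj1, sj2⟩ := sh_bd (w := w) hAB ha hb hc j
  obtain ⟨sk1, sk2⟩ := sh_bd (w := w) hAB ha hb hc k
  rcases lt_trichotomy T 0 with h | h | h
  · left; right
    have h10 : K1 n * T ≤ K1 n * (-1) := mul_le_mul_of_nonneg_left (by omega) (by rw [h7]; positivity)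
    rw [hz, hv]
    constructor <;> linarith
  · rw [h, mul_zero] at hv
    obtain ⟨e1, e2⟩ := ee_bd ha hb hc
    have hb3 : (i / w) + (j / w) + 1 = k / w := by omega
    by_cases hall : ((i / w = A ∧ a ≤ i) ∨ (i / w = B ∧ b ≤ i)) ∧
        ((j / w = A ∧ a ≤ j) ∨ (j / w = B ∧ b ≤ j)) ∧ (k / w = A + B + 1 ∧ k ≤ c)
    · right
      obtain ⟨q1, q2, q3, q4⟩ := hall
      refine ⟨?_, ?_⟩
      · rcases q1 with q1 | q1 <;> rcases q2 with q2 | q2
        · exfalso; omega
        · left; exact ⟨q1.1, q2.1, q3⟩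
        · right; exact ⟨q2.1, q1.1, q3⟩
        · exfalso; omega
      · have r1 : sh n w A B a b c i = K2 n := by
          rcases sh_cases (n := n) (w := w) (a := a) (b := b) (c := c) hAB i with
            h | h | h | h | h | h | h
          all_goals first
            | (exfalso; omega)
            | exact h.2.2
        have r2 : sh n w A B a b c j = K2 n := by
          rcases sh_cases (n := n) (w := w) (a := a) (b := b) (c := c) hAB j with
            h | h | h | h | h | h | h
          all_goals first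
            | (exfalso; omega)
            | exact h.2.2
        have r3 : sh n w A B a b c k = -(K2 n - ee a b c) := by
          rcases sh_cases (n := n) (w := w) (a := a) (b := b) (c := c) hAB k with
            h | h | h | h | h | h | h
          all_goals first
            | (exfalso; omega)
            | exact h.2.2
        rw [hz, hv, r1, r2, r3]
        ring
    · left; right
      refine ⟨by rw [hv]; linarith, ?_⟩
      rw [hz, hv]
      have key : sh n w A B a b c i + sh n w A B a b c j - sh n w A B a b c k ≤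
          2 * K2 n + 4 ^ n := by
        rcases sh_cases (n := n) (w := w) (a := a) (b := b) (c := c) hAB i with
          u | u | u | u | u | u | u <;>
        rcases sh_cases (n := n) (w := w) (a := a) (b := b) (c := c) hAB j with
          v | v | v | v | v | v | v <;>
        rcases sh_cases (n := n) (w := w) (a := a) (b := b) (c := c) hAB k with
          x | x | x | x | x | x | x
        all_goals first
          | (exfalso; omega)
          | linarith [u.2.2, v.2.2, x.2.2]
          | linarith [u.2.2.2, v.2.2, x.2.2]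
          | linarith [u.2.2, v.2.2.2, x.2.2]
          | linarith [u.2.2, v.2.2, x.2.2.2]
          | linarith [u.2.2.2, v.2.2.2, x.2.2]
          | linarith [u.2.2.2, v.2.2, x.2.2.2]
          | linarith [u.2.2, v.2.2.2, x.2.2.2]
          | linarith [u.2.2.2, v.2.2.2, x.2.2.2]
      linarith
  · left; left
    have h10 : K1 n * 1 ≤ K1 n * T := mul_le_mul_of_nonneg_left (by omega) (by rw [h7]; positivity)
    rw [hz, hv]
    constructor <;> linarith

/-- (E) -/
theorem facE (hAB : A < B) (ha : a < n) (hb : b < n) (hc : c < n) {i j k : ℕ} (hi : i < n)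
    (hj : j < n) (hk : k < n) (h1 : ¬ (i / w = A ∧ j / w = B ∧ k / w = A + B + 1))
    (h2 : ¬ (j / w = A ∧ i / w = B ∧ k / w = A + B + 1)) :
    (0 < X n w i + X n w j - X n w k ∧
      0 < Z n w A B a b c i + Z n w A B a b c j - Z n w A B a b c k) ∨
     (X n w i + X n w j - X n w k < 0 ∧
      Z n w A B a b c i + Z n w A B a b c j - Z n w A B a b c k < 0) := by
  rcases fac (w := w) hAB ha hb hc hi hj hk with h | h
  · exact h
  · exfalso
    rcases h.1 with h | h
    · exact h1 h
    · exact h2 h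

/-- (Z) -/
theorem facZ (hAB : A < B) (ha : a < n) (hb : b < n) (hc : c < n) (hca : c ≠ a) (hcb : c ≠ b)
    {i j k : ℕ} (hi : i < n) (hj : j < n) (hk : k < n) (hki : k ≠ i) (hkj : k ≠ j)
    (h0 : Z n w A B a b c i + Z n w A B a b c j - Z n w A B a b c k = 0) :
    ((i = a ∧ j = b) ∨ (i = b ∧ j = a)) ∧ k = c := by
  rcases fac (w := w) hAB ha hb hc hi hj hk with h | h
  · exfalso
    rcases h with h | h
    · linarith [h.2]
    · linarith [h.2]
  · have h1 := h.2
    rw [h0] at h1
    refine pow3 hki hkj hca hcb ?_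
    unfold ee at h1
    linarith

theorem zabc (hAB : A < B) (ha : a < n) (hb : b < n) (hc : c < n) (hA : a / w = A)
    (hB : b / w = B) (hC : c / w = A + B + 1) :
    Z n w A B a b c a + Z n w A B a b c b - Z n w A B a b c c = 0 := by
  have r1 : sh n w A B a b c a = K2 n := by
    rcases sh_cases (n := n) (w := w) (a := a) (b := b) (c := c) hAB a with
      h | h | h | h | h | h | h
    all_goals first
      | (exfalso; omega)
      | exact h.2.2
  have r2 : sh n w A B a b c b = K2 n := by
    rcases sh_cases (n := n) (w := w) (a := a) (b := b) (c := c) hAB b with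
      h | h | h | h | h | h | h
    all_goals first
      | (exfalso; omega)
      | exact h.2.2
  have r3 : sh n w A B a b c c = -(K2 n - ee a b c) := by
    rcases sh_cases (n := n) (w := w) (a := a) (b := b) (c := c) hAB c with
      h | h | h | h | h | h | h
    all_goals first
      | (exfalso; omega)
      | exact h.2.2
  unfold Z X
  rw [r1, r2, r3, hA, hB, hC]
  unfold ee
  push_cast
  ring

end

end Pool.Agent.H23.TR
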