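import Pool.Agent.H72.TR.Defs

/-!
# Auxiliary lemmas for the instances (project TR)
-/

set_option autoImplicit false
set_option linter.all false

namespace Pool.Agent.H23.TR

open Pool.Agent.H72.TR

lemma pow3_sorted {i j c a b k : ℕ} (h1 : i ≤ j) (h2 : j ≤ c) (h3 : a ≤ b) (h4 : b ≤ k)
    (h : 4 ^ i + 4 ^ j + 4 ^ c = 4 ^ a + 4 ^ b + 4 ^ k) : i = a ∧ j = b ∧ c = k := by
  have hp : ∀ x y : ℕ, x ≤ y → 4 ^ x ≤ 4 ^ y := fun x y hxy => Nat.pow_le_pow_right (by norm_num) hxy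
  have hq : ∀ x y : ℕ, x < y → 4 * 4 ^ x ≤ 4 ^ y := fun x y hxy => by
    have := Nat.pow_le_pow_right (n := 4) (by norm_num) (show x + 1 ≤ y from hxy)
    rw [pow_succ] at this
    omega
  have hpos : ∀ x : ℕ, 0 < 4 ^ x := fun x => pow_pos (by norm_num) x
  have hck : c = k := by
    rcases lt_trichotomy c k with hlt | heq | hgt
    · have := hq c k hlt
      have := hp i c (h1.trans h2)
      have := hp j c h2
      have := hpos a
      have := hpos b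
      have := hpos c
      omega
    · exact heq
    · have := hq k c hgt
      have := hp a k (h3.trans h4)
      have := hp b k h4
      have := hpos i
      have := hpos j
      have := hpos k
      omega
  subst hck
  have hjb : j = b := by
    rcases lt_trichotomy j b with hlt | heq | hgt
    · have := hq j b hlt
      have := hp i j h1
      have := hpos a
      have := hpos j
      omega
    · exact heq
    · have := hq b j hgt
      have := hp a b h3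
      have := hpos i
      have := hpos b
      omega
  subst hjb
  refine ⟨?_, rfl, rfl⟩
  have h5 : 4 ^ i = 4 ^ a := by omega
  exact Nat.pow_right_injective (le_refl 2 |>.trans (by norm_num : 2 ≤ 4)) h5

/-- sums of three powers of four -/
lemma pow3 {i j k a b c : ℕ} (hki : k ≠ i) (hkj : k ≠ j) (hca : c ≠ a) (hcb : c ≠ b)
    (h : (4 : ℤ) ^ i + 4 ^ j - 4 ^ k = 4 ^ a + 4 ^ b - 4 ^ c) :
    ((i = a ∧ j = b) ∨ (i = b ∧ j = a)) ∧ k = c := by
  have h' : 4 ^ i + 4 ^ j + 4 ^ c = 4 ^ a + 4 ^ b + 4 ^ k := by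
    have : (4 : ℤ) ^ i + 4 ^ j + 4 ^ c = 4 ^ a + 4 ^ b + 4 ^ k := by linarith
    exact_mod_cast this
  have key : ∀ x y z : ℕ, ∃ x' y' z' : ℕ, x' ≤ y' ∧ y' ≤ z' ∧
      4 ^ x + 4 ^ y + 4 ^ z = 4 ^ x' + 4 ^ y' + 4 ^ z' ∧
      ((x = x' ∧ y = y' ∧ z = z') ∨ (x = x' ∧ y = z' ∧ z = y') ∨ (x = y' ∧ y = x' ∧ z = z') ∨
       (x = y' ∧ y = z' ∧ z = x') ∨ (x = z' ∧ y = x' ∧ z = y') ∨ (x = z' ∧ y = y' ∧ z = x')) := by
    intro x y z
    rcases le_total x y with h1 | h1 <;> rcases le_total y z with h2 | h2 <;>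
      rcases le_total x z with h3 | h3
    · exact ⟨x, y, z, h1, h2, rfl, by omega⟩
    · exact ⟨x, y, z, h1, h2, rfl, by omega⟩
    · exact ⟨x, z, y, h3, h2, by ring, by omega⟩
    · exact ⟨z, x, y, h3, h1, by ring, by omega⟩
    · exact ⟨y, x, z, h1, h3, by ring, by omega⟩
    · exact ⟨y, z, x, h2, h3, by ring, by omega⟩
    · exact ⟨z, y, x, h2, h1, by ring, by omega⟩
    · exact ⟨z, y, x, h2, h1, by ring, by omega⟩
  obtain ⟨x1, y1, z1, q1, q2, q3, q4⟩ := key i j c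
  obtain ⟨x2, y2, z2, r1, r2, r3, r4⟩ := key a b k
  have h5 := pow3_sorted q1 q2 r1 r2 (by rw [← q3, ← r3]; exact h')
  omega

/-- the shape of a form with three terms, up to the sign -/
theorem shape {n : ℕ} (c : Fin n → ℝ) (h : ThreeTerms c) : ∃ e : ℝ, (e = 1 ∨ e = -1) ∧
    ((∀ u, e * c u = 0) ∨
     (∃ i : Fin n, ∀ u, e * c u = if i = u then 1 else 0) ∨
     (∃ i j : Fin n, ∀ u, e * c u = (if i = u then 1 else 0) + (if j = u then 1 else 0)) ∨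
     (∃ i j k : Fin n, ∀ u, e * c u = (if i = u then 1 else 0) + (if j = u then 1 else 0) +
        (if k = u then 1 else 0)) ∨
     (∃ i j : Fin n, i ≠ j ∧ ∀ u, e * c u = (if i = u then 1 else 0) - (if j = u then 1 else 0)) ∨
     (∃ i j k : Fin n, k ≠ i ∧ k ≠ j ∧ ∀ u, e * c u =
        (if i = u then 1 else 0) + (if j = u then 1 else 0) - (if k = u then 1 else 0))) := by
  obtain ⟨s, p, hs, hc⟩ := h
  have F11 : ∀ e : ℝ, (e = 1 ∨ e = -1) → ∀ i j : Fin n,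
      (∀ u, e * c u = (if i = u then 1 else 0) - (if j = u then 1 else 0)) →
      ∃ e : ℝ, (e = 1 ∨ e = -1) ∧ ((∀ u, e * c u = 0) ∨
     (∃ i : Fin n, ∀ u, e * c u = if i = u then 1 else 0) ∨
     (∃ i j : Fin n, ∀ u, e * c u = (if i = u then 1 else 0) + (if j = u then 1 else 0)) ∨
     (∃ i j k : Fin n, ∀ u, e * c u = (if i = u then 1 else 0) + (if j = u then 1 else 0) +
        (if k = u then 1 else 0)) ∨
     (∃ i j : Fin n, i ≠ j ∧ ∀ u, e * c u = (if i = u then 1 else 0) - (if j = u then 1 else 0)) ∨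
     (∃ i j k : Fin n, k ≠ i ∧ k ≠ j ∧ ∀ u, e * c u =
        (if i = u then 1 else 0) + (if j = u then 1 else 0) - (if k = u then 1 else 0))) := by
    intro e he i j h
    by_cases hij : i = j
    · refine ⟨e, he, Or.inl fun u => ?_⟩
      rw [h, hij, sub_self]
    · exact ⟨e, he, Or.inr (Or.inr (Or.inr (Or.inr (Or.inl ⟨i, j, hij, h⟩))))⟩
  have F21 : ∀ e : ℝ, (e = 1 ∨ e = -1) → ∀ i j k : Fin n,
      (∀ u, e * c u = (if i = u then 1 else 0) + (if j = u then 1 else 0) -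
        (if k = u then 1 else 0)) →
      ∃ e : ℝ, (e = 1 ∨ e = -1) ∧ ((∀ u, e * c u = 0) ∨
     (∃ i : Fin n, ∀ u, e * c u = if i = u then 1 else 0) ∨
     (∃ i j : Fin n, ∀ u, e * c u = (if i = u then 1 else 0) + (if j = u then 1 else 0)) ∨
     (∃ i j k : Fin n, ∀ u, e * c u = (if i = u then 1 else 0) + (if j = u then 1 else 0) +
        (if k = u then 1 else 0)) ∨
     (∃ i j : Fin n, i ≠ j ∧ ∀ u, e * c u = (if i = u then 1 else 0) - (if j = u then 1 else 0)) ∨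
     (∃ i j k : Fin n, k ≠ i ∧ k ≠ j ∧ ∀ u, e * c u =
        (if i = u then 1 else 0) + (if j = u then 1 else 0) - (if k = u then 1 else 0))) := by
    intro e he i j k h
    by_cases hki : k = i
    · refine ⟨e, he, Or.inr (Or.inl ⟨j, fun u => ?_⟩)⟩
      rw [h, hki]
      ring
    · by_cases hkj : k = j
      · refine ⟨e, he, Or.inr (Or.inl ⟨i, fun u => ?_⟩)⟩
        rw [h, hkj]
        ring
      · exact ⟨e, he, Or.inr (Or.inr (Or.inr (Or.inr (Or.inr ⟨i, j, k, hki, hkj, h⟩))))⟩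
  have hv : ∀ u, c u = (if p 0 = u then (s 0 : ℝ) else 0) + (if p 1 = u then (s 1 : ℝ) else 0) +
      (if p 2 = u then (s 2 : ℝ) else 0) := by
    intro u
    rw [hc u, Fin.sum_univ_three]
  have h1 : ∀ (q : Prop) [Decidable q], (if q then ((-1 : ℤ) : ℝ) else 0) =
      -(if q then 1 else 0) := by
    intro q _
    split_ifs <;> simp
  have h2 : ∀ (q : Prop) [Decidable q], (if q then ((0 : ℤ) : ℝ) else 0) = 0 := by
    intro q _
    split_ifs <;> simp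
  have h3 : ∀ (q : Prop) [Decidable q], (if q then ((1 : ℤ) : ℝ) else 0) =
      (if q then 1 else 0) := by
    intro q _
    split_ifs <;> simp
  have m1 : (-1 : ℝ) = 1 ∨ (-1 : ℝ) = -1 := Or.inr rfl
  have p1 : (1 : ℝ) = 1 ∨ (1 : ℝ) = -1 := Or.inl rfl
  rcases hs 0 with a | a | a <;> rcases hs 1 with b | b | b <;> rcases hs 2 with d | d | d <;>
    simp only [a, b, d, h1, h2, h3] at hv
  -- -1 -1 -1
  · exact ⟨-1, m1, Or.inr (Or.inr (Or.inr (Or.inl ⟨p 0, p 1, p 2, fun u => by rw [hv]; ring⟩)))⟩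
  -- -1 -1 0
  · exact ⟨-1, m1, Or.inr (Or.inr (Or.inl ⟨p 0, p 1, fun u => by rw [hv]; ring⟩))⟩
  -- -1 -1 1
  · exact F21 (-1) m1 (p 0) (p 1) (p 2) fun u => by rw [hv]; ring
  -- -1 0 -1
  · exact ⟨-1, m1, Or.inr (Or.inr (Or.inl ⟨p 0, p 2, fun u => by rw [hv]; ring⟩))⟩
  -- -1 0 0
  · exact ⟨-1, m1, Or.inr (Or.inl ⟨p 0, fun u => by rw [hv]; ring⟩)⟩
  -- -1 0 1
  · exact F11 (-1) m1 (p 0) (p 2) fun u => by rw [hv]; ring
  -- -1 1 -1
  · exact F21 (-1) m1 (p 0) (p 2) (p 1) fun u => by rw [hv]; ring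
  -- -1 1 0
  · exact F11 (-1) m1 (p 0) (p 1) fun u => by rw [hv]; ring
  -- -1 1 1
  · exact F21 1 p1 (p 1) (p 2) (p 0) fun u => by rw [hv]; ring
  -- 0 -1 -1
  · exact ⟨-1, m1, Or.inr (Or.inr (Or.inl ⟨p 1, p 2, fun u => by rw [hv]; ring⟩))⟩
  -- 0 -1 0
  · exact ⟨-1, m1, Or.inr (Or.inl ⟨p 1, fun u => by rw [hv]; ring⟩)⟩
  -- 0 -1 1
  · exact F11 (-1) m1 (p 1) (p 2) fun u => by rw [hv]; ring
  -- 0 0 -1
  · exact ⟨-1, m1, Or.inr (Or.inl ⟨p 2, fun u => by rw [hv]; ring⟩)⟩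
  -- 0 0 0
  · exact ⟨1, p1, Or.inl fun u => by rw [hv]; ring⟩
  -- 0 0 1
  · exact ⟨1, p1, Or.inr (Or.inl ⟨p 2, fun u => by rw [hv]; ring⟩)⟩
  -- 0 1 -1
  · exact F11 1 p1 (p 1) (p 2) fun u => by rw [hv]; ring
  -- 0 1 0
  · exact ⟨1, p1, Or.inr (Or.inl ⟨p 1, fun u => by rw [hv]; ring⟩)⟩
  -- 0 1 1
  · exact ⟨1, p1, Or.inr (Or.inr (Or.inl ⟨p 1, p 2, fun u => by rw [hv]; ring⟩))⟩
  -- 1 -1 -1
  · exact F21 (-1) m1 (p 1) (p 2) (p 0) fun u => by rw [hv]; ring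
  -- 1 -1 0
  · exact F11 1 p1 (p 0) (p 1) fun u => by rw [hv]; ring
  -- 1 -1 1
  · exact F21 1 p1 (p 0) (p 2) (p 1) fun u => by rw [hv]; ring
  -- 1 0 -1
  · exact F11 1 p1 (p 0) (p 2) fun u => by rw [hv]; ring
  -- 1 0 0
  · exact ⟨1, p1, Or.inr (Or.inl ⟨p 0, fun u => by rw [hv]; ring⟩)⟩
  -- 1 0 1
  · exact ⟨1, p1, Or.inr (Or.inr (Or.inl ⟨p 0, p 2, fun u => by rw [hv]; ring⟩))⟩
  -- 1 1 -1
  · exact F21 1 p1 (p 0) (p 1) (p 2) fun u => by rw [hv]; ring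
  -- 1 1 0
  · exact ⟨1, p1, Or.inr (Or.inr (Or.inl ⟨p 0, p 1, fun u => by rw [hv]; ring⟩))⟩
  -- 1 1 1
  · exact ⟨1, p1, Or.inr (Or.inr (Or.inr (Or.inl ⟨p 0, p 1, p 2, fun u => by rw [hv]; ring⟩)))⟩

/-- the sign of `S k + β` -/
theorem sgn {S : ℕ} {β : ℝ} (hβ : |β| < S) {k : ℤ} (hk : k ≠ 0) :
    SignType.sign ((S : ℝ) * k + β) = SignType.sign (k : ℝ) := by
  obtain ⟨h1, h2⟩ := abs_lt.1 hβ
  have hS : (0 : ℝ) ≤ S := Nat.cast_nonneg S
  rcases lt_or_gt_of_ne hk with h | h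
  · have h3 : (k : ℝ) ≤ -1 := by exact_mod_cast (by omega : k ≤ -1)
    have h4 : (S : ℝ) * k + β < 0 := by nlinarith
    rw [sign_neg h4, sign_neg (by linarith)]
  · have h3 : (1 : ℝ) ≤ (k : ℝ) := by exact_mod_cast (by omega : 1 ≤ k)
    have h4 : 0 < (S : ℝ) * k + β := by nlinarith
    rw [sign_pos h4, sign_pos (by linarith)]

end Pool.Agent.H23.TR
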