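import Mathlib

/-!
# Rows of nested labels (project TR)
-/

set_option autoImplicit false
set_option linter.all false

namespace Pool.Agent.H23.TR.Row

open Finset

theorem chain {X τ : Type} (H : Finset X) (D : X → ℝ) (hD : ∀ x, 0 ≤ D x) (F : τ → X → Prop)
    [∀ t, DecidablePred (F t)] (A : Finset τ) [DecidablePred fun x => ∃ t ∈ A, F t x] (ε : ℝ)
    (hε : 0 ≤ ε)
    (hch : ∀ t ∈ A, ∀ t' ∈ A, (∀ x ∈ H, F t x → F t' x) ∨ (∀ x ∈ H, F t' x → F t x))
    (hm : ∀ t ∈ A, ∑ x ∈ H.filter (fun x => F t x), D x ≤ ε) :
    ∑ x ∈ H.filter (fun x => ∃ t ∈ A, F t x), D x ≤ ε := by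
  rcases A.eq_empty_or_nonempty with rfl | hA
  · simpa using hε
  · obtain ⟨t, ht, hmax⟩ := A.exists_max_image (fun t => (H.filter (fun x => F t x)).card) hA
    refine le_trans (sum_le_sum_of_subset_of_nonneg ?_ fun x _ _ => hD x) (hm t ht)
    intro x hx
    obtain ⟨hxH, t', ht', hF⟩ := mem_filter.1 hx
    refine mem_filter.2 ⟨hxH, ?_⟩
    rcases hch t ht t' ht' with h | h
    · have hsub : H.filter (fun x => F t x) ⊆ H.filter (fun x => F t' x) := fun y hy =>
        mem_filter.2 ⟨(mem_filter.1 hy).1, h y (mem_filter.1 hy).1 (mem_filter.1 hy).2⟩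
      have heq := eq_of_subset_of_card_le hsub (hmax t' ht')
      have h2 : x ∈ H.filter (fun x => F t' x) := mem_filter.2 ⟨hxH, hF⟩
      rw [← heq] at h2
      exact (mem_filter.1 h2).2
    · exact h x hxH hF

variable {X τ γ : Type}

open Classical in
theorem row (H : Finset X) (D : X → ℝ) (hD : ∀ x, 0 ≤ D x) (hM : 0 < ∑ x ∈ H, D x)
    (R : Finset τ) (b : X → τ → Bool)
    (hch : ∀ x ∈ H, ∀ x' ∈ H, (∀ t ∈ R, b x t = true → b x' t = true) ∨
      (∀ t ∈ R, b x' t = true → b x t = true))
    (c : X → γ) (θ : ℝ) (hθ : 0 < θ) :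
    ∑ x ∈ H, D x / (∑ x' ∈ H.filter (fun x' => c x' = c x), D x') *
        (∑ x' ∈ H.filter (fun x' => c x' = c x),
          D x' * (if ∃ t ∈ R, b x' t ≠ b x t then 1 else 0)) ≤
      4 * θ * (∑ x ∈ H, D x) +
      ∑ t ∈ R.filter (fun t => θ * (∑ x ∈ H, D x) ≤
          ∑ x ∈ H, D x * ((∑ x' ∈ H.filter (fun x' => b x' t ≠ b x t), D x') / (∑ x ∈ H, D x))),
        ∑ x ∈ H, D x / (∑ x' ∈ H.filter (fun x' => c x' = c x), D x') *
          (∑ x' ∈ H.filter (fun x' => c x' = c x),
            D x' * (if b x' t ≠ b x t then 1 else 0)) := by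
  set M : ℝ := ∑ x ∈ H, D x with hMdef
  set heavy : Finset τ := R.filter (fun t => θ * M ≤
    ∑ x ∈ H, D x * ((∑ x' ∈ H.filter (fun x' => b x' t ≠ b x t), D x') / M)) with hheavy
  obtain ⟨m, hm⟩ : ∃ m : X → ℝ, m = fun x => ∑ x' ∈ H.filter (fun x' => c x' = c x), D x' :=
    ⟨_, rfl⟩
  have hmx : ∀ x, ∑ x' ∈ H.filter (fun x' => c x' = c x), D x' = m x := fun x => by rw [hm]
  simp only [hmx]
  have hm0 : ∀ x, 0 ≤ m x := fun x => by
    rw [← hmx]
    exact sum_nonneg fun y _ => hD y
  have hmc : ∀ x x', c x' = c x → m x' = m x := fun x x' h => by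
    rw [← hmx, ← hmx, h]
  obtain ⟨w, hw⟩ : ∃ w : X → X → ℝ, w = fun x x' => if c x' = c x then D x / m x * D x' else 0 :=
    ⟨_, rfl⟩
  have hwx : ∀ x x', w x x' = if c x' = c x then D x / m x * D x' else 0 := fun x x' => by rw [hw]
  have hw0 : ∀ x x', 0 ≤ w x x' := fun x x' => by
    rw [hwx]
    split_ifs
    · exact mul_nonneg (div_nonneg (hD x) (hm0 x)) (hD x')
    · exact le_rfl
  have hsymm : ∀ x x', w x x' = w x' x := by
    intro x x'
    rw [hwx, hwx]
    by_cases h : c x' = c x
    · rw [if_pos h, if_pos h.symm, hmc x x' h]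
      ring
    · rw [if_neg h, if_neg fun h' => h h'.symm]
  have conv : ∀ (x : X) (I : X → ℝ),
      D x / m x * (∑ x' ∈ H.filter (fun x' => c x' = c x), D x' * I x') =
        ∑ x' ∈ H, w x x' * I x' := by
    intro x I
    rw [mul_sum, sum_filter]
    refine sum_congr rfl fun x' _ => ?_
    rw [hwx]
    split_ifs
    · ring
    · ring
  have hwsum : ∀ x, ∑ x' ∈ H, w x x' ≤ D x := by
    intro x
    have h1 := conv x (fun _ => 1)
    simp only [mul_one] at h1
    rw [← h1, hmx]
    rcases (hm0 x).eq_or_lt with h | h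
    · rw [← h, mul_zero]
      exact hD x
    · rw [div_mul_cancel₀ _ h.ne']
  simp only [conv]
  -- light places
  have hPN : ∀ t, ∑ x ∈ H.filter (fun x => b x t = true), D x +
      ∑ x ∈ H.filter (fun x => b x t = false), D x = M := by
    intro t
    have h1 := sum_filter_add_sum_filter_not H (fun x => b x t = true) D
    have h2 : H.filter (fun x => ¬ b x t = true) = H.filter (fun x => b x t = false) :=
      filter_congr fun x _ => by simp
    rw [h2] at h1
    exact h1
  have hq : ∀ t, ∑ x ∈ H, D x * ((∑ x' ∈ H.filter (fun x' => b x' t ≠ b x t), D x') / M) =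
      2 * (∑ x ∈ H.filter (fun x => b x t = true), D x) *
        (∑ x ∈ H.filter (fun x => b x t = false), D x) / M := by
    intro t
    set P := ∑ x ∈ H.filter (fun x => b x t = true), D x with hP
    set N := ∑ x ∈ H.filter (fun x => b x t = false), D x with hN
    have h1 : ∀ x ∈ H, D x * ((∑ x' ∈ H.filter (fun x' => b x' t ≠ b x t), D x') / M) =
        (if b x t = true then D x * (N / M) else 0) +
          (if b x t = false then D x * (P / M) else 0) := by
      intro x _
      by_cases hb : b x t = true
      · rw [if_pos hb, if_neg (by rw [hb]; simp), add_zero]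
        congr 2
        rw [hN]
        exact sum_congr (filter_congr fun x' _ => by rw [hb]; simp) fun _ _ => rfl
      · have hb' : b x t = false := by simpa using hb
        rw [if_neg hb, if_pos hb', zero_add]
        congr 2
        rw [hP]
        exact sum_congr (filter_congr fun x' _ => by rw [hb']; simp) fun _ _ => rfl
    rw [sum_congr rfl h1, sum_add_distrib, ← sum_filter, ← sum_filter, ← sum_mul, ← sum_mul,
      ← hP, ← hN]
    ring
  have hlight : ∀ t ∈ R, t ∉ heavy → (∑ x ∈ H.filter (fun x => b x t = false), D x ≤ θ * M) ∨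
      (∑ x ∈ H.filter (fun x => b x t = true), D x ≤ θ * M) := by
    intro t ht hth
    by_contra hcon
    push Not at hcon
    obtain ⟨h1, h2⟩ := hcon
    apply hth
    rw [hheavy, mem_filter]
    refine ⟨ht, ?_⟩
    rw [hq, le_div_iff₀ hM]
    have h3 := hPN t
    set P := ∑ x ∈ H.filter (fun x => b x t = true), D x
    set N := ∑ x ∈ H.filter (fun x => b x t = false), D x
    rcases le_total P N with h4 | h4
    · have h5 : M ≤ 2 * N := by linarith
      have h6 : θ * M * M ≤ θ * M * (2 * N) := mul_le_mul_of_nonneg_left h5 (by positivity)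
      have h7 : θ * M * (2 * N) ≤ P * (2 * N) := mul_le_mul_of_nonneg_right h2.le (by linarith)
      linarith
    · have h5 : M ≤ 2 * P := by linarith
      have h6 : θ * M * M ≤ θ * M * (2 * P) := mul_le_mul_of_nonneg_left h5 (by positivity)
      have h7 : θ * M * (2 * P) ≤ N * (2 * P) := mul_le_mul_of_nonneg_right h1.le (by linarith)
      linarith
  set A : Finset τ := R.filter (fun t => t ∉ heavy ∧
    ∑ x ∈ H.filter (fun x => b x t = false), D x ≤ θ * M) with hA
  set B : Finset τ := R.filter (fun t => t ∉ heavy ∧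
    ∑ x ∈ H.filter (fun x => b x t = true), D x ≤ θ * M) with hB
  have cross : ∀ t ∈ R, ∀ t' ∈ R, ∀ x ∈ H, ∀ x' ∈ H, b x t = false → b x t' = true →
      b x' t' = false → b x' t = true → False := by
    intro t ht t' ht' x hx x' hx' h1 h2 h3 h4
    rcases hch x hx x' hx' with h | h
    · have := h t' ht' h2
      rw [h3] at this
      exact Bool.false_ne_true this
    · have := h t ht h4
      rw [h1] at this
      exact Bool.false_ne_true this
  have c1 := chain H D hD (fun t x => b x t = false) A (θ * M) (by positivity)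
    (fun t ht t' ht' => by
      by_contra hcon
      push Not at hcon
      obtain ⟨⟨x, hx, h1, h2⟩, x', hx', h3, h4⟩ := hcon
      exact cross t (mem_filter.1 ht).1 t' (mem_filter.1 ht').1 x hx x' hx' h1 (by simpa using h2)
        h3 (by simpa using h4))
    (fun t ht => (mem_filter.1 ht).2.2)
  have c2 := chain H D hD (fun t x => b x t = true) B (θ * M) (by positivity)
    (fun t ht t' ht' => by
      by_contra hcon
      push Not at hcon
      obtain ⟨⟨x, hx, h1, h2⟩, x', hx', h3, h4⟩ := hcon
      exact cross t (mem_filter.1 ht).1 t' (mem_filter.1 ht').1 x' hx' x hx (by simpa using h4) h3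
        (by simpa using h2) h1)
    (fun t ht => (mem_filter.1 ht).2.2)
  -- atypical
  obtain ⟨at', hat⟩ : ∃ at' : X → ℝ, at' = fun x =>
      (if ∃ t ∈ A, b x t = false then 1 else 0) + (if ∃ t ∈ B, b x t = true then (1 : ℝ) else 0) :=
    ⟨_, rfl⟩
  have hat0 : ∀ x, 0 ≤ at' x := fun x => by
    rw [hat]
    positivity
  have hatm : ∑ x ∈ H, D x * at' x ≤ 2 * (θ * M) := by
    have h1 : ∀ x ∈ H, D x * at' x = (if ∃ t ∈ A, b x t = false then D x else 0) +
        (if ∃ t ∈ B, b x t = true then D x else 0) := by
      intro x _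
      rw [hat]
      simp only []
      split_ifs <;> ring
    rw [sum_congr rfl h1, sum_add_distrib, ← sum_filter, ← sum_filter]
    linarith
  have point : ∀ x ∈ H, ∀ x' ∈ H, (if ∃ t ∈ R, b x' t ≠ b x t then (1 : ℝ) else 0) ≤
      at' x + at' x' + ∑ t ∈ heavy, (if b x' t ≠ b x t then (1 : ℝ) else 0) := by
    intro x hx x' hx'
    have hsn : 0 ≤ ∑ t ∈ heavy, (if b x' t ≠ b x t then (1 : ℝ) else 0) :=
      sum_nonneg fun t _ => by split_ifs <;> norm_num
    by_cases h : ∃ t ∈ R, b x' t ≠ b x t
    · rw [if_pos h]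
      obtain ⟨t, ht, hne⟩ := h
      by_cases hth : t ∈ heavy
      · have h1 := single_le_sum (f := fun t => if b x' t ≠ b x t then (1 : ℝ) else 0)
          (fun t _ => by
            show (0 : ℝ) ≤ if b x' t ≠ b x t then (1 : ℝ) else 0
            split_ifs <;> norm_num) hth
        have h2 : (if b x' t ≠ b x t then (1 : ℝ) else 0) = 1 := if_pos hne
        have h3 : (1 : ℝ) ≤ ∑ t ∈ heavy, (if b x' t ≠ b x t then (1 : ℝ) else 0) := by
          refine le_trans (le_of_eq h2.symm) h1
        have h4 := hat0 x
        have h5 := hat0 x'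
        linarith
      · have h1 : 1 ≤ at' x + at' x' := by
          rcases hlight t ht hth with hl | hl
          · have htA : t ∈ A := mem_filter.2 ⟨ht, hth, hl⟩
            by_cases hb : b x t = false
            · have h2 : (1 : ℝ) ≤ at' x := by
                rw [hat]
                simp only []
                rw [if_pos ⟨t, htA, hb⟩]
                have : (0 : ℝ) ≤ if ∃ t ∈ B, b x t = true then (1 : ℝ) else 0 := by
                  split_ifs <;> norm_num
                linarith
              have := hat0 x'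
              linarith
            · have hb' : b x' t = false := by
                have h3 : b x t = true := by simpa using hb
                rw [h3] at hne
                simpa using hne
              have h2 : (1 : ℝ) ≤ at' x' := by
                rw [hat]
                simp only []
                rw [if_pos ⟨t, htA, hb'⟩]
                have : (0 : ℝ) ≤ if ∃ t ∈ B, b x' t = true then (1 : ℝ) else 0 := by
                  split_ifs <;> norm_num
                linarith
              have := hat0 x
              linarith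
          · have htB : t ∈ B := mem_filter.2 ⟨ht, hth, hl⟩
            by_cases hb : b x t = true
            · have h2 : (1 : ℝ) ≤ at' x := by
                rw [hat]
                simp only []
                rw [if_pos (show ∃ t ∈ B, b x t = true from ⟨t, htB, hb⟩)]
                have : (0 : ℝ) ≤ if ∃ t ∈ A, b x t = false then (1 : ℝ) else 0 := by
                  split_ifs <;> norm_num
                linarith
              have := hat0 x'
              linarith
            · have hb' : b x' t = true := by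
                have h3 : b x t = false := by simpa using hb
                rw [h3] at hne
                simpa using hne
              have h2 : (1 : ℝ) ≤ at' x' := by
                rw [hat]
                simp only []
                rw [if_pos (show ∃ t ∈ B, b x' t = true from ⟨t, htB, hb'⟩)]
                have : (0 : ℝ) ≤ if ∃ t ∈ A, b x' t = false then (1 : ℝ) else 0 := by
                  split_ifs <;> norm_num
                linarith
              have := hat0 x
              linarith
        linarith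
    · rw [if_neg h]
      have h4 := hat0 x
      have h5 := hat0 x'
      linarith
  -- the sums
  have s1 : ∑ x ∈ H, ∑ x' ∈ H, w x x' * at' x ≤ 2 * (θ * M) := by
    refine le_trans (sum_le_sum fun x _ => ?_) hatm
    rw [← sum_mul]
    exact mul_le_mul_of_nonneg_right (hwsum x) (hat0 x)
  have s2 : ∑ x ∈ H, ∑ x' ∈ H, w x x' * at' x' ≤ 2 * (θ * M) := by
    rw [sum_comm]
    refine le_trans (le_of_eq ?_) s1
    exact sum_congr rfl fun x _ => sum_congr rfl fun x' _ => by rw [hsymm]
  have s3 : ∑ x ∈ H, ∑ x' ∈ H, w x x' * ∑ t ∈ heavy, (if b x' t ≠ b x t then (1 : ℝ) else 0) =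
      ∑ t ∈ heavy, ∑ x ∈ H, ∑ x' ∈ H, w x x' * (if b x' t ≠ b x t then 1 else 0) := by
    have h1 : ∀ x ∈ H, ∑ x' ∈ H, w x x' * ∑ t ∈ heavy, (if b x' t ≠ b x t then (1 : ℝ) else 0) =
        ∑ t ∈ heavy, ∑ x' ∈ H, w x x' * (if b x' t ≠ b x t then 1 else 0) := by
      intro x _
      rw [sum_comm]
      exact sum_congr rfl fun x' _ => mul_sum _ _ _
    rw [sum_congr rfl h1, sum_comm]
  calc ∑ x ∈ H, ∑ x' ∈ H, w x x' * (if ∃ t ∈ R, b x' t ≠ b x t then 1 else 0)
      ≤ ∑ x ∈ H, ∑ x' ∈ H, w x x' *
          (at' x + at' x' + ∑ t ∈ heavy, (if b x' t ≠ b x t then (1 : ℝ) else 0)) :=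
        sum_le_sum fun x hx => sum_le_sum fun x' hx' =>
          mul_le_mul_of_nonneg_left (point x hx x' hx') (hw0 x x')
    _ = ∑ x ∈ H, ∑ x' ∈ H, w x x' * at' x + ∑ x ∈ H, ∑ x' ∈ H, w x x' * at' x' +
          ∑ x ∈ H, ∑ x' ∈ H, w x x' *
            ∑ t ∈ heavy, (if b x' t ≠ b x t then (1 : ℝ) else 0) := by
        simp only [mul_add, sum_add_distrib]
    _ ≤ 4 * θ * M + ∑ t ∈ heavy, ∑ x ∈ H, ∑ x' ∈ H,
          w x x' * (if b x' t ≠ b x t then 1 else 0) := by
        rw [s3]
        linarith

end Pool.Agent.H23.TR.Row
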